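import Pool.Agent.Lead.Sub2

set_option autoImplicit false

namespace Pool.Agent.Results.MP_83c1a8_pr.Q1
open Pool.Agent.Lead.Sub

/-- An edge can be more likely in the uniform 2-forest than in the uniform spanning tree. -/
theorem result : ∃ (n : ℕ) (G : SimpleGraph (Fin n)) (e : Sym2 (Fin n)),
    G.Connected ∧ 2 ≤ n ∧ n + 2 ≤ G.edgeSet.ncard ∧ e ∈ G.edgeSet ∧
      marg (forests G (n - 1)) e < marg (forests G (n - 2)) e :=
  ⟨7, gr ((2, 6) :: L7), s(2, 6), conn7, by norm_num, card7, adj7, key7⟩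

end Pool.Agent.Results.MP_83c1a8_pr.Q1
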